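import Pool.Agent.helper15.XE.SpecC

/-!
# xe:FN (MP_5628fe_nt): the count of the theorem, all windows of an admissible set together
-/

set_option autoImplicit false

namespace Pool.Agent.XE

open Finset ArithmeticFunction
open Pool.Agent.EC (tri TL wt mt Adm edg mnf tI tII tyI cvl KK yN UN TUP TLe GdT)
open Pool.Agent.CH (rgh Mo ClP ClB)

/-- the elementary facts about `log` which hold for large `N` -/
private lemma FN_ev (δ : ℝ) (hδ : 0 < δ) : ∃ N₀ : ℕ, ∀ N : ℕ, N₀ ≤ N →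
    20 ≤ Real.log N ∧
    Real.log N ^ 2 * (N : ℝ) ^ (39 / 20 : ℝ) ≤ δ * (N : ℝ) ^ 2 := by
  have e1 : ∀ᶠ x : ℝ in Filter.atTop, ‖Real.log x‖ ≤ Real.sqrt δ * ‖x ^ (1 / 40 : ℝ)‖ :=
    (isLittleO_log_rpow_atTop (by norm_num : (0 : ℝ) < 1 / 40)).bound (Real.sqrt_pos.2 hδ)
  have e2 : ∀ᶠ x : ℝ in Filter.atTop, 20 ≤ Real.log x :=
    Real.tendsto_log_atTop.eventually_ge_atTop 20
  have e3 : ∀ᶠ x : ℝ in Filter.atTop, (100 : ℝ) ≤ x := Filter.eventually_ge_atTop 100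
  obtain ⟨N₀, hN₀⟩ := Filter.eventually_atTop.1
    (tendsto_natCast_atTop_atTop.eventually (e1.and (e2.and e3)))
  refine ⟨N₀, fun N hN => ?_⟩
  obtain ⟨a1, a2, a3⟩ := hN₀ N hN
  have hNpos : (0 : ℝ) < (N : ℝ) := by linarith
  refine ⟨a2, ?_⟩
  rw [Real.norm_of_nonneg (by linarith : (0 : ℝ) ≤ Real.log N),
    Real.norm_of_nonneg (Real.rpow_nonneg hNpos.le _)] at a1
  have h1 : Real.log (N : ℝ) ^ 2 ≤ δ * (N : ℝ) ^ (1 / 20 : ℝ) := by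
    have h2 : Real.log (N : ℝ) ^ 2 ≤ (Real.sqrt δ * (N : ℝ) ^ (1 / 40 : ℝ)) ^ 2 :=
      pow_le_pow_left₀ (by linarith) a1 2
    have h3 : (Real.sqrt δ * (N : ℝ) ^ (1 / 40 : ℝ)) ^ 2 = δ * (N : ℝ) ^ (1 / 20 : ℝ) := by
      rw [mul_pow, Real.sq_sqrt hδ.le, ← Real.rpow_natCast ((N : ℝ) ^ (1 / 40 : ℝ)) 2,
        ← Real.rpow_mul hNpos.le]
      norm_num
    rw [h3] at h2
    exact h2
  have h4 : (N : ℝ) ^ (1 / 20 : ℝ) * (N : ℝ) ^ (39 / 20 : ℝ) = (N : ℝ) ^ 2 := by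
    rw [← Real.rpow_add hNpos]
    norm_num
  calc Real.log (N : ℝ) ^ 2 * (N : ℝ) ^ (39 / 20 : ℝ)
      ≤ (δ * (N : ℝ) ^ (1 / 20 : ℝ)) * (N : ℝ) ^ (39 / 20 : ℝ) :=
        mul_le_mul_of_nonneg_right h1 (Real.rpow_nonneg hNpos.le _)
    _ = δ * (N : ℝ) ^ 2 := by rw [mul_assoc, h4]

private lemma FN_adm {K K' Q : ℝ} {l : ℕ → ℝ} (hK : K ≤ K') (h : Adm K Q l) : Adm K' Q l :=
  ⟨fun m => (h.1 m).trans hK, h.2⟩

/-- the inequality of the assembly, `L = log N`, `L' = log (N+1)`, `M = N²` -/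
private lemma FN_num (c₀ L L' M X m₁ m₂ S₁ S₂ G E : ℝ) (hc₀ : 0 < c₀) (hL : 1 ≤ L) (hL' : L' ≤ 51 / 50 * L)
    (hL'0 : 0 ≤ L') (hM : 0 ≤ M) (hX : M / 4 ≤ X) (hG : 0 ≤ G) (hE0 : 0 ≤ E)
    (hm₂ : 0 ≤ m₂) (hm : c₀ / L ≤ m₁ - 445 / 1000 * m₂)
    (hS₁ : 1 / 8 * X * m₁ - c₀ / 320 * M / L ≤ S₁)
    (hS₂ : S₂ ≤ 1 / 8 * (435 / 1000) * (X / (3 * L)) * m₂ + c₀ / 320 * M / L ^ 2)
    (hW : S₁ - 3 * L' * S₂ ≤ 3 * L' * (G + E)) (hE : L ^ 2 * E ≤ c₀ / 400 * M) :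
    c₀ / 400 * M / L ^ 2 ≤ G := by
  have hLpos : 0 < L := by linarith
  have hX0 : 0 ≤ X := by linarith
  -- upper bound of the switched part
  have a1 : 3 * L' * S₂ ≤ X / 8 * (445 / 1000) * m₂ + 3 * (51 / 50) * (c₀ / 320) * M / L := by
    have b1 : 3 * L' * S₂ ≤
        3 * L' * (1 / 8 * (435 / 1000) * (X / (3 * L)) * m₂ + c₀ / 320 * M / L ^ 2) :=
      mul_le_mul_of_nonneg_left hS₂ (by linarith)
    have b2 : 0 ≤ 1 / 8 * (435 / 1000) * (X / (3 * L)) * m₂ + c₀ / 320 * M / L ^ 2 := by positivity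
    have b3 : 3 * L' * (1 / 8 * (435 / 1000) * (X / (3 * L)) * m₂ + c₀ / 320 * M / L ^ 2) ≤
        3 * (51 / 50 * L) * (1 / 8 * (435 / 1000) * (X / (3 * L)) * m₂ + c₀ / 320 * M / L ^ 2) :=
      mul_le_mul_of_nonneg_right (by linarith) b2
    have b4 : 3 * (51 / 50 * L) * (1 / 8 * (435 / 1000) * (X / (3 * L)) * m₂ + c₀ / 320 * M / L ^ 2) =
        X / 8 * (51 / 50 * (435 / 1000)) * m₂ + 3 * (51 / 50) * (c₀ / 320) * M / L := by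
      field_simp
    have b5 : X / 8 * (51 / 50 * (435 / 1000)) * m₂ ≤ X / 8 * (445 / 1000) * m₂ := by
      have : 0 ≤ X * m₂ := mul_nonneg hX0 hm₂
      nlinarith
    linarith
  -- lower bound of the left side
  have a2 : X / 8 * (c₀ / L) ≤ X / 8 * (m₁ - 445 / 1000 * m₂) :=
    mul_le_mul_of_nonneg_left hm (by linarith)
  have a3 : M / 4 / 8 * (c₀ / L) ≤ X / 8 * (c₀ / L) :=
    mul_le_mul_of_nonneg_right (by linarith) (by positivity)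
  have a4 : c₀ / 64 * M / L ≤ 3 * L' * (G + E) := by
    have e1 : M / 4 / 8 * (c₀ / L) = c₀ / 32 * (M / L) := by ring
    have e2 : c₀ / 320 * M / L = c₀ / 320 * (M / L) := by ring
    have e3 : 3 * (51 / 50) * (c₀ / 320) * M / L = 3 * (51 / 50) * (c₀ / 320) * (M / L) := by ring
    have e4 : c₀ / 64 * M / L = c₀ / 64 * (M / L) := by ring
    have e5 : 0 ≤ c₀ * (M / L) := by positivity
    rw [e1] at a3
    rw [e2] at hS₁
    rw [e3] at a1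
    rw [e4]
    nlinarith
  have a5 : 3 * L' * (G + E) ≤ 3 * (51 / 50 * L) * (G + E) :=
    mul_le_mul_of_nonneg_right (by linarith) (by linarith)
  have a6 : c₀ / 64 * M ≤ 3 * (51 / 50) * (L ^ 2 * (G + E)) := by
    have e1 : c₀ / 64 * M / L ≤ 3 * (51 / 50 * L) * (G + E) := a4.trans a5
    rw [div_le_iff₀ hLpos] at e1
    calc c₀ / 64 * M ≤ 3 * (51 / 50 * L) * (G + E) * L := e1
      _ = 3 * (51 / 50) * (L ^ 2 * (G + E)) := by ring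
  have a7 : c₀ / 200 * M ≤ L ^ 2 * (G + E) := by
    have : 0 ≤ c₀ * M := by positivity
    nlinarith
  rw [div_le_iff₀ (by positivity)]
  nlinarith

private lemma FN_swap (N : ℕ) (V : Finset ℝ) (S : Finset ℕ) (F G : ℕ → ℝ) :
    ∑ j ∈ S, F j * fV N V j * G j = ∑ v ∈ V, ∑ j ∈ S, F j * wv N v j * G j := by
  rw [Finset.sum_comm]
  refine Finset.sum_congr rfl fun j _ => ?_
  unfold fV
  rw [Finset.mul_sum, Finset.sum_mul]

theorem FN (h1 : PRM_stmt) (h2 : SLW_stmt) (h3 : SWT_stmt) (h4 : WND_stmt) (h5 : WVB_stmt) :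
    FN_stmt := by
  obtain ⟨c₀, K, hc₀, hK, N₁, hSLW⟩ := h2
  have hKK : K ≤ max K 8 := le_max_left _ _
  have h8K : (8 : ℝ) ≤ max K 8 := le_max_right _ _
  have hK1 : 0 < max K 8 := lt_of_lt_of_le hK hKK
  have he : 0 < c₀ / 320 := by positivity
  obtain ⟨N₂, hPRM⟩ := h1 (c₀ / 320) (max K 8) he hK1
  obtain ⟨N₃, hSWT⟩ := h3 (c₀ / 320) (max K 8) he hK1
  obtain ⟨N₄, hWND⟩ := h4
  obtain ⟨N₅, _, hWVB⟩ := h5
  obtain ⟨N₆, hN₆⟩ := FN_ev (c₀ / 400) (by positivity)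
  refine ⟨c₀ / 400, by positivity, N₁ + N₂ + N₃ + N₄ + N₅ + N₆, fun N hN V hV => ?_⟩
  obtain ⟨l₁, l', l₂, A1, A', A2, w1, w', w2, m', m2, m2', mm⟩ := hSLW N (by omega)
  obtain ⟨L1, L3⟩ := hN₆ N (by omega)
  have hLpos : 0 < Real.log (N : ℝ) := by linarith
  have hdiv : K / Real.log (N : ℝ) ≤ max K 8 / Real.log (N : ℝ) :=
    div_le_div_of_nonneg_right hKK hLpos.le
  have P := hPRM N (by omega) V hV l₁ l' (FN_adm h8K A1) (FN_adm h8K A') w' (m'.trans hdiv)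
  have w20 : ∀ a : ℕ, 1 ≤ a → 0 ≤ wt l₂ a := by
    intro a ha
    refine le_trans ?_ (w2 a ha)
    split_ifs
    · exact le_rfl
    · exact zero_le_one
  have S := hSWT N (by omega) V hV l₂ (FN_adm h8K A2) w20 m2 (m2'.trans hdiv)
  have W : ∑ j ∈ Z3 N with j % 30 = 1, vonMangoldt j * fV N V j * wt l₁ (j + 6) -
      3 * (Real.log N + 1 / 3) * ∑ m ∈ Z3 N with m % 30 = 7, TS N m * fV N V m * wt l₂ (m - 6) ≤
      3 * (Real.log N + 1 / 3) * (∑ v ∈ V, (#(GX N v) : ℝ) + #V * (N : ℝ) ^ (39 / 20 : ℝ)) := by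
    rw [FN_swap N V ((Z3 N).filter fun j => j % 30 = 1) (fun j => vonMangoldt j) (fun j => wt l₁ (j + 6)),
      FN_swap N V ((Z3 N).filter fun j => j % 30 = 7) (fun j => TS N j) (fun j => wt l₂ (j - 6))]
    have e1 : 3 * (Real.log (N : ℝ) + 1 / 3) = 3 * Real.log N + 1 := by ring
    rw [e1, Finset.mul_sum, ← Finset.sum_sub_distrib, mul_add, Finset.mul_sum]
    have e2 : (3 * Real.log (N : ℝ) + 1) * (#V * (N : ℝ) ^ (39 / 20 : ℝ)) =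
        ∑ v ∈ V, (3 * Real.log (N : ℝ) + 1) * (N : ℝ) ^ (39 / 20 : ℝ) := by
      rw [Finset.sum_const, nsmul_eq_mul]
      ring
    rw [e2, ← Finset.sum_add_distrib]
    refine Finset.sum_le_sum fun v hv => ?_
    have h := hWND N (by omega) v (hV.1 v hv) l₁ l₂ w1 w2
    rw [mul_add] at h
    exact h
  have X : (#V : ℝ) * (N : ℝ) ^ 2 / 4 ≤ XV N V := by
    unfold XV
    have e3 : (#V : ℝ) * (N : ℝ) ^ 2 / 4 = ∑ v ∈ V, (N : ℝ) ^ 2 / 4 := by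
      rw [Finset.sum_const, nsmul_eq_mul]
      ring
    rw [e3]
    exact Finset.sum_le_sum fun v hv => ((hWVB N (by omega)).1 v (hV.1 v hv)).2.1
  have hG0 : 0 ≤ ∑ v ∈ V, (#(GX N v) : ℝ) := Finset.sum_nonneg fun v _ => Nat.cast_nonneg _
  have hP : 1 / 8 * XV N V * mt (QV N) l₁ - c₀ / 320 * (#V * (N : ℝ) ^ 2) / Real.log N ≤
      ∑ j ∈ Z3 N with j % 30 = 1, vonMangoldt j * fV N V j * wt l₁ (j + 6) := by
    have e4 : c₀ / 320 * (#V * (N : ℝ) ^ 2) = c₀ / 320 * #V * (N : ℝ) ^ 2 := by ring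
    rw [e4]
    exact P
  have hS : ∑ m ∈ Z3 N with m % 30 = 7, TS N m * fV N V m * wt l₂ (m - 6) ≤
      1 / 8 * (435 / 1000) * (XV N V / (3 * Real.log N)) * mt (QV N) l₂ + c₀ / 320 * (#V * (N : ℝ) ^ 2) / Real.log N ^ 2 := by
    have e4 : c₀ / 320 * (#V * (N : ℝ) ^ 2) = c₀ / 320 * #V * (N : ℝ) ^ 2 := by ring
    rw [e4]
    exact S
  have hE : Real.log N ^ 2 * (#V * (N : ℝ) ^ (39 / 20 : ℝ)) ≤ c₀ / 400 * (#V * (N : ℝ) ^ 2) := by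
    have h := mul_le_mul_of_nonneg_left L3 (Nat.cast_nonneg #V : (0 : ℝ) ≤ (#V : ℝ))
    linarith
  have hfin := FN_num c₀ (Real.log N) (Real.log N + 1 / 3) (#V * (N : ℝ) ^ 2) (XV N V) (mt (QV N) l₁) (mt (QV N) l₂)
    _ _ (∑ v ∈ V, (#(GX N v) : ℝ)) (#V * (N : ℝ) ^ (39 / 20 : ℝ)) hc₀ (by linarith) (by linarith) (by linarith) (by positivity) X hG0
    (by positivity) m2 mm hP hS W hE
  have e5 : c₀ / 400 * #V * (N : ℝ) ^ 2 / Real.log N ^ 2 = c₀ / 400 * (#V * (N : ℝ) ^ 2) / Real.log N ^ 2 := by ring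
  rw [e5]
  exact hfin

end Pool.Agent.XE
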