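import Pool.Agent.helper15.XE.SpecC

/-! Row SWI of project XE (MP_5628fe_nt) -/

set_option autoImplicit false

namespace Pool.Agent.XE

open Finset ArithmeticFunction
open Pool.Agent.EC (tri TL wt mt Adm edg mnf tI tII tyI cvl KK yN UN TUP TLe GdT)
open Pool.Agent.CH (rgh Mo ClP ClB)

private theorem SWI_tot (m : ℕ) (h : Nat.Coprime m 30) :
    (Nat.totient (30 * m) : ℝ) = 8 * (Nat.totient m : ℝ) := by
  rw [Nat.totient_mul h.symm]
  have : Nat.totient 30 = 8 := by decide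
  rw [this]
  push_cast
  ring

private theorem SWI_mt (K Q : ℝ) (l : ℕ → ℝ) (hl : Adm K Q l) :
    ∑ m ∈ Mo Q, l m * (1 / (Nat.totient (30 * m) : ℝ)) = 1 / 8 * mt Q l := by
  unfold EC.mt Mo
  rw [sum_filter, mul_sum]
  apply sum_congr rfl
  intro m _
  by_cases hm : Nat.Coprime m 30
  · rw [if_pos hm, SWI_tot m hm]
    ring
  · rw [if_neg hm]
    have : l m = 0 := by
      by_contra hc
      exact hm (hl.2 m hc).2.1
    rw [this]
    simp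

private theorem SWI_sub (N : ℕ) (P : ℕ → Prop) [DecidablePred P] (F : ℕ → ℝ) (hF : ∀ j, F j ≠ 0 → N ^ 3 < j) :
    ∑ j ∈ (Z3 N).filter P, F j = ∑ j ∈ ((Z3 N).filter fun j => N ^ 3 < j).filter P, F j := by
  symm
  refine sum_subset (filter_subset_filter _ (filter_subset _ _)) ?_
  intro j hj hj'
  by_contra h
  rw [mem_filter] at hj
  exact hj' (mem_filter.2 ⟨mem_filter.2 ⟨hj.1, hF j h⟩, hj.2⟩)

private theorem SWI_sub' (N : ℕ) (F : ℕ → ℝ) (hF : ∀ j, F j ≠ 0 → N ^ 3 < j) :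
    ∑ j ∈ Z3 N, F j = ∑ j ∈ (Z3 N).filter (fun j => N ^ 3 < j), F j := by
  symm
  refine sum_subset (filter_subset _ _) ?_
  intro j hj hj'
  by_contra h
  exact hj' (mem_filter.2 ⟨hj, hF j h⟩)

/-- One cell. -/
private theorem SWI_cell (h4 : Pool.Agent.EC.EXW_stmt) (N : ℕ) (hN : 2 ≤ N) (K Q E : ℝ) (l w : ℕ → ℝ) (r' : ℕ → ℕ) (hr' : ClB r')
    (hl : Adm K Q l) (hw : ∀ j, w j ≠ 0 → N ^ 3 < j)
    (hG : ∑ m ∈ Mo Q, |∑ j ∈ Z3 N with j ≡ r' m [MOD 30 * m], w j -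
      1 / (Nat.totient (30 * m) : ℝ) * ∑ j ∈ Z3 N, w j| ≤ E) :
    ∑ m ∈ Z3 N with m % 30 = 7, w m * wt l (m - 6) ≤ (∑ j ∈ Z3 N, w j) * (1 / 8 * mt Q l) + K * E := by
  have hK : 0 ≤ K := (abs_nonneg _).trans (hl.1 0)
  have h7 : ∀ b ∈ (Z3 N).filter (fun j => N ^ 3 < j), 7 ≤ b := by
    intro b hb
    rw [mem_filter] at hb
    have : 2 ^ 3 ≤ N ^ 3 := Nat.pow_le_pow_left hN 3
    omega
  have g1 : ∑ m ∈ Z3 N with m % 30 = 7, w m * wt l (m - 6) =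
      ∑ m ∈ (Z3 N).filter (fun j => N ^ 3 < j) with m % 30 = 7, w m * wt l (m - 6) :=
    SWI_sub N (fun m => m % 30 = 7) (fun m => w m * wt l (m - 6)) (fun j hj => hw j (left_ne_zero_of_mul hj))
  rw [g1, ((h4.2.2 w l Q r' ((Z3 N).filter (fun j => N ^ 3 < j)) (fun m hm => ⟨(hl.2 m hm).2.1, (hl.2 m hm).2.2⟩)).2 hr' h7)]
  have g2 : ∀ m : ℕ, ∑ b ∈ (Z3 N).filter (fun j => N ^ 3 < j) with b ≡ r' m [MOD 30 * m], w b =
      ∑ b ∈ Z3 N with b ≡ r' m [MOD 30 * m], w b := fun m => (SWI_sub N _ w hw).symm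
  have e1 : ∑ m ∈ Mo Q, l m * ∑ b ∈ (Z3 N).filter (fun j => N ^ 3 < j) with b ≡ r' m [MOD 30 * m], w b =
      ∑ m ∈ Mo Q, l m * (1 / (Nat.totient (30 * m) : ℝ)) * (∑ j ∈ Z3 N, w j) +
      ∑ m ∈ Mo Q, l m * (∑ j ∈ Z3 N with j ≡ r' m [MOD 30 * m], w j -
        1 / (Nat.totient (30 * m) : ℝ) * ∑ j ∈ Z3 N, w j) := by
    rw [← sum_add_distrib]
    apply sum_congr rfl
    intro m _
    rw [g2 m]
    ring
  rw [e1, ← sum_mul, SWI_mt K Q l hl]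
  have e2 : ∑ m ∈ Mo Q, l m * (∑ j ∈ Z3 N with j ≡ r' m [MOD 30 * m], w j -
        1 / (Nat.totient (30 * m) : ℝ) * ∑ j ∈ Z3 N, w j) ≤ K * E := by
    calc _ ≤ ∑ m ∈ Mo Q, K * |∑ j ∈ Z3 N with j ≡ r' m [MOD 30 * m], w j -
        1 / (Nat.totient (30 * m) : ℝ) * ∑ j ∈ Z3 N, w j| := by
          apply sum_le_sum
          intro m _
          refine (le_abs_self _).trans ?_
          rw [abs_mul]
          exact mul_le_mul_of_nonneg_right (hl.1 m) (abs_nonneg _)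
      _ ≤ K * E := by
          rw [← mul_sum]
          exact mul_le_mul_of_nonneg_left hG hK
  linarith

theorem SWI (h1 : TLC_stmt) (h2 : GVT_stmt) (h3 : EDT_stmt) (h4 : Pool.Agent.EC.EXW_stmt) (h5 : Pool.Agent.EC.MTA_stmt) (h6 : WVB_stmt) :
    SWI_stmt := by
  intro r a b hab ε' K hε' hK
  obtain ⟨δ₁, hδ₁, k1⟩ := h1 r a b hab
  obtain ⟨δ₀, hδ₀, k2⟩ := h3 r a b hab (ε' / 2) K (by positivity) hK
  obtain ⟨δ, hδ, hδa, hδb⟩ : ∃ δ : ℝ, 0 < δ ∧ δ ≤ δ₀ ∧ δ ≤ δ₁ :=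
    ⟨min δ₀ δ₁, lt_min hδ₀ hδ₁, min_le_left _ _, min_le_right _ _⟩
  obtain ⟨n, a', b', hc, hTL⟩ := k1 δ hδ hδb
  obtain ⟨N₁, k3⟩ := k2 δ hδ hδa
  have hG := fun c : Fin n => h2 r (a' c) (b' c) (hc c).1 δ hδ (hc c).2 3
  choose Nc hNc using hG
  obtain ⟨r', hr'⟩ := h4.2.1
  obtain ⟨N₂, hN₂, k4⟩ := h6
  refine ⟨max (max N₁ N₂) (max (∑ c, Nc c) (max 2 ⌈Real.exp (1 + 2 * n * K / ε')⌉₊)), ?_⟩
  intro N hN V hV l hl hpos hmt
  have hN1 : N₁ ≤ N := (le_max_left _ _).trans ((le_max_left _ _).trans hN)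
  have hN1' : N₂ ≤ N := (le_max_right _ _).trans ((le_max_left _ _).trans hN)
  have hN' := (le_max_right (max N₁ N₂) _).trans hN
  have hN2 : ∑ c, Nc c ≤ N := (le_max_left _ _).trans hN'
  have hN'' := (le_max_right (∑ c, Nc c) _).trans hN'
  have hN3 : 2 ≤ N := (le_max_left _ _).trans hN''
  have hN4 : Real.exp (1 + 2 * n * K / ε') ≤ (N : ℝ) :=
    (Nat.le_ceil _).trans (by exact_mod_cast (le_max_right _ _).trans hN'')
  have hNc' : ∀ c, Nc c ≤ N := fun c =>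
    (single_le_sum (f := Nc) (fun i _ => Nat.zero_le _) (mem_univ c)).trans hN2
  have hN0 : (0 : ℝ) < N := by exact_mod_cast (by omega : 0 < N)
  have hf := fun j : ℕ => ((k4 N hN1').2 V hV.1 hV.2.1).2 j
  obtain ⟨L, hLd⟩ : ∃ L : ℝ, L = Real.log N := ⟨_, rfl⟩
  have hL : 1 + 2 * n * K / ε' ≤ L := by
    rw [hLd, Real.le_log_iff_exp_le hN0]
    exact hN4
  have hq0 : 0 ≤ 2 * n * K / ε' := by positivity
  have hL1 : 1 ≤ L := by linarith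
  have hL0 : 0 < L := by linarith
  obtain ⟨Q, hQ⟩ : ∃ Q : ℝ, Q = QV N := ⟨_, rfl⟩
  have k3' := fun v (hv : v ∈ V) => k3 N hN1 l hl hpos hmt v (hV.1 v hv)
  rw [← hQ] at hl hmt ⊢
  rw [← hLd] at hmt k3' ⊢
  have hmt0 : 0 ≤ mt Q l := h5.1 K Q l hl hpos
  have hw : ∀ m : ℕ, 0 ≤ fV N V m * wt l (m - 6) := by
    intro m
    by_cases h0 : fV N V m = 0
    · rw [h0, zero_mul]
    · refine mul_nonneg (hf m).1 (hpos _ ?_)
      have h := ((hf m).2.2 h0).1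
      have : 2 ^ 3 ≤ N ^ 3 := Nat.pow_le_pow_left hN3 3
      omega
  have s1 : ∑ m ∈ Z3 N with m % 30 = 7, TL N a b m * fV N V m * wt l (m - 6) ≤
      ∑ m ∈ Z3 N with m % 30 = 7, (∑ c, TL N (a' c) (b' c) m * fV N V m * wt l (m - 6) +
        TLe N a b δ m * fV N V m * wt l (m - 6)) := by
    apply sum_le_sum
    intro m hm
    have h := (hTL N m hN3).1
    have h' := mul_le_mul_of_nonneg_right h (hw m)
    have e : ∑ c, TL N (a' c) (b' c) m * fV N V m * wt l (m - 6) =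
        (∑ c, TL N (a' c) (b' c) m) * (fV N V m * wt l (m - 6)) := by
      rw [sum_mul]
      apply sum_congr rfl
      intro c _
      ring
    rw [e]
    linarith
  rw [sum_add_distrib, sum_comm] at s1
  have s0 : ∑ m ∈ Z3 N with m % 30 = 7, TLe N a b δ m * fV N V m * wt l (m - 6) ≤
      #V * (ε' / 2 * (N : ℝ) ^ 2 / L) := by
    have e0 : ∑ m ∈ Z3 N with m % 30 = 7, TLe N a b δ m * fV N V m * wt l (m - 6) =
        ∑ v ∈ V, ∑ m ∈ Z3 N with m % 30 = 7, TLe N a b δ m * wv N v m * wt l (m - 6) := by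
      rw [sum_comm]
      refine sum_congr rfl fun m _ => ?_
      unfold fV
      rw [mul_sum, sum_mul]
    rw [e0, ← nsmul_eq_mul]
    exact sum_le_card_nsmul _ _ _ k3'
  have s2 : ∀ c : Fin n, ∑ m ∈ Z3 N with m % 30 = 7, TL N (a' c) (b' c) m * fV N V m * wt l (m - 6) ≤
      (∑ j ∈ Z3 N, TL N (a' c) (b' c) j * fV N V j) * (1 / 8 * mt Q l) + K * (#V * (N : ℝ) ^ 2 / L ^ 3) := by
    intro c
    have g := hNc c N (hNc' c) V hV r' hr'
    rw [← hQ, ← hLd] at g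
    exact SWI_cell h4 N hN3 K Q _ l (fun m => TL N (a' c) (b' c) m * fV N V m) r' hr' hl
      (fun j hj => ((hf j).2.2 (right_ne_zero_of_mul hj)).1) g
  have s3 : ∑ c : Fin n, ∑ m ∈ Z3 N with m % 30 = 7, TL N (a' c) (b' c) m * fV N V m * wt l (m - 6) ≤
      (∑ j ∈ Z3 N, TL N a b j * fV N V j) * (1 / 8 * mt Q l) + n * (K * (#V * (N : ℝ) ^ 2 / L ^ 3)) := by
    refine (sum_le_sum fun c _ => s2 c).trans ?_
    rw [sum_add_distrib, sum_const, card_univ, Fintype.card_fin, nsmul_eq_mul, ← sum_mul]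
    refine add_le_add_left ?_ _
    apply mul_le_mul_of_nonneg_right _ (by positivity)
    rw [sum_comm]
    apply sum_le_sum
    intro m _
    rw [← sum_mul]
    exact mul_le_mul_of_nonneg_right (hTL N m hN3).2 (hf m).1
  have s4 : n * (K * (#V * (N : ℝ) ^ 2 / L ^ 3)) ≤ #V * (ε' / 2 * (N : ℝ) ^ 2 / L) := by
    have e1 : n * (K * (#V * (N : ℝ) ^ 2 / L ^ 3)) = (n * K) * (#V * (N : ℝ) ^ 2) / L ^ 3 := by ring
    have e1' : #V * (ε' / 2 * (N : ℝ) ^ 2 / L) = ε' / 2 * (#V * (N : ℝ) ^ 2) / L := by ring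
    rw [e1, e1', div_le_div_iff₀ (by positivity) hL0]
    have e2 : 2 * n * K / ε' ≤ L ^ 2 := by nlinarith
    have e3 : 2 * n * K ≤ L ^ 2 * ε' := by rwa [div_le_iff₀ hε'] at e2
    have e4 : n * K ≤ ε' / 2 * L ^ 2 := by linarith
    calc (n * K) * (#V * (N : ℝ) ^ 2) * L = (n * K) * ((#V * (N : ℝ) ^ 2) * L) := by ring
      _ ≤ (ε' / 2 * L ^ 2) * ((#V * (N : ℝ) ^ 2) * L) := mul_le_mul_of_nonneg_right e4 (by positivity)
      _ = ε' / 2 * (#V * (N : ℝ) ^ 2) * L ^ 3 := by ring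
  have s5 : #V * (ε' / 2 * (N : ℝ) ^ 2 / L) + #V * (ε' / 2 * (N : ℝ) ^ 2 / L) = ε' * #V * (N : ℝ) ^ 2 / L := by ring
  linarith

end Pool.Agent.XE
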