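import Pool.Agent.helper15.XE.SpecS
import Pool.Agent.helper92.GD.BV4

/-!
# MP_5628fe, row xe:ESC: characters of small conductor modulo M, edge function, a general window
-/

set_option autoImplicit false

namespace Pool.Agent.XE

open Finset ArithmeticFunction
open Pool.Agent.EC (tri TL wt mt Adm edg yN UN)
open Pool.Agent.SK (tr0 g0 gj)
open Pool.Agent.CH (rgh Mo ClP ClB)
open GD (kp ks)

open Classical in
/-- reduction to the single characters (as in SCK, helper31) -/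
private theorem ESC_red (J : Finset ℕ) (f : ℕ → ℝ) (S : ℝ) (m c R : ℕ) (hm : 0 < m)
    (hc : Nat.Coprime c m) (hR : 1 ≤ R) (ε : ℝ)
    (hε : ∀ χ : DirichletCharacter ℂ m, χ.conductor ≤ R →
      (χ = 1 → ‖∑ n ∈ J, (f n : ℂ) * χ n - (S : ℂ)‖ ≤ ε) ∧
      (χ ≠ 1 → ‖∑ n ∈ J, (f n : ℂ) * χ n - 0‖ ≤ ε)) :
    |∑ n ∈ J, f n * ks R m c n - (1 / (Nat.totient m : ℝ)) * S| ≤
      (1 / (Nat.totient m : ℝ)) * ((R * R : ℕ) * ε) := by
  have : NeZero m := ⟨hm.ne'⟩
  have hφ : 0 < Nat.totient m := Nat.totient_pos.2 hm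
  have hφ0 : (0 : ℝ) < Nat.totient m := by exact_mod_cast hφ
  set F := (univ : Finset (DirichletCharacter ℂ m)).filter fun χ => χ.conductor ≤ R with hF
  have hε0 : 0 ≤ ε := by
    refine (norm_nonneg _).trans ((hε 1 ?_).1 rfl)
    rw [DirichletCharacter.eq_one_iff_conductor_eq_one.1 rfl]
    exact hR
  have h1F : (1 : DirichletCharacter ℂ m) ∈ F := by
    rw [hF, mem_filter]
    refine ⟨mem_univ _, ?_⟩
    rw [DirichletCharacter.eq_one_iff_conductor_eq_one.1 rfl]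
    exact hR
  have key : ∑ n ∈ J, f n * ks R m c n - (1 / (Nat.totient m : ℝ)) * S =
      (1 / (Nat.totient m : ℝ)) * (∑ χ ∈ F, (starRingEnd ℂ) (χ c) *
        (∑ n ∈ J, (f n : ℂ) * χ n - (if χ = 1 then (S : ℂ) else 0))).re := by
    have e1 : ∑ χ ∈ F, (starRingEnd ℂ) (χ c) * (if χ = 1 then (S : ℂ) else 0) = S := by
      rw [sum_eq_single_of_mem 1 h1F (fun χ _ hχ => by rw [if_neg hχ, mul_zero]), if_pos rfl,
        MulChar.one_apply ((ZMod.isUnit_iff_coprime c m).2 hc), map_one, one_mul]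
    have e2 : ∑ n ∈ J, f n * ks R m c n =
        (1 / (Nat.totient m : ℝ)) * (∑ χ ∈ F, (starRingEnd ℂ) (χ c) *
          ∑ n ∈ J, (f n : ℂ) * χ n).re := by
      have e3 : ∑ χ ∈ F, (starRingEnd ℂ) (χ c) * ∑ n ∈ J, (f n : ℂ) * χ n =
          ∑ n ∈ J, (f n : ℂ) * ∑ χ ∈ F, (starRingEnd ℂ) (χ c) * χ n := by
        simp_rw [mul_sum]
        rw [sum_comm]
        refine sum_congr rfl fun n _ => sum_congr rfl fun χ _ => ?_
        ring
      rw [e3, Complex.re_sum, mul_sum]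
      refine sum_congr rfl fun n _ => ?_
      rw [Complex.re_ofReal_mul]
      unfold ks
      ring
    simp_rw [mul_sub]
    rw [sum_sub_distrib, e1, Complex.sub_re, mul_sub, e2, Complex.ofReal_re]
  rw [key, abs_mul, abs_of_nonneg (by positivity : 0 ≤ 1 / (Nat.totient m : ℝ))]
  refine mul_le_mul_of_nonneg_left ?_ (by positivity)
  refine (Complex.abs_re_le_norm _).trans ((norm_sum_le _ _).trans ?_)
  calc ∑ χ ∈ F, ‖(starRingEnd ℂ) (χ c) *
        (∑ n ∈ J, (f n : ℂ) * χ n - (if χ = 1 then (S : ℂ) else 0))‖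
      ≤ ∑ χ ∈ F, ε := by
        apply sum_le_sum
        intro χ hχ
        rw [norm_mul, RCLike.norm_conj]
        have h1 := DirichletCharacter.norm_le_one χ (c : ZMod m)
        have h2 := hε χ (mem_filter.1 hχ).2
        by_cases hχ1 : χ = 1
        · rw [if_pos hχ1]
          exact (mul_le_mul h1 (h2.1 hχ1) (norm_nonneg _) zero_le_one).trans (le_of_eq (one_mul ε))
        · rw [if_neg hχ1]
          exact (mul_le_mul h1 (h2.2 hχ1) (norm_nonneg _) zero_le_one).trans (le_of_eq (one_mul ε))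
    _ = (#F : ℝ) * ε := by rw [sum_const, nsmul_eq_mul]
    _ ≤ ((R * R : ℕ) : ℝ) * ε := by
        apply mul_le_mul_of_nonneg_right _ hε0
        exact_mod_cast GD.BV4_card m R hm

/-- passing to the primitive character -/
private theorem ESC_prim (J : Finset ℕ) (m : ℕ) (f : ℕ → ℝ)
    (χ : DirichletCharacter ℂ m) (S : ℂ) :
    ‖∑ n ∈ J, (f n : ℂ) * χ n - S‖ ≤
      ‖∑ n ∈ J, (f n : ℂ) * χ.primitiveCharacter n - S‖ +
        ∑ n ∈ J with ¬ Nat.Coprime n m, |f n| := by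
  have h1 : ∑ n ∈ J, (f n : ℂ) * χ n =
      ∑ n ∈ J, (f n : ℂ) * χ.primitiveCharacter n -
        ∑ n ∈ J with ¬ Nat.Coprime n m, (f n : ℂ) * χ.primitiveCharacter n := by
    rw [sum_filter, ← sum_sub_distrib]
    refine sum_congr rfl fun n _ => ?_
    by_cases hn : Nat.Coprime n m
    · have h2 := χ.primitiveCharacter_apply_of_isCoprime (a := (n : ℤ))
        (Nat.isCoprime_iff_coprime.mpr hn)
      push_cast at h2
      rw [if_neg (by simpa using hn), sub_zero, h2]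
    · rw [if_pos hn, sub_self, MulChar.map_nonunit _ (fun h => hn
        ((ZMod.isUnit_iff_coprime n m).1 h)), mul_zero]
  rw [h1, sub_right_comm]
  refine (norm_sub_le _ _).trans (add_le_add le_rfl ?_)
  refine (norm_sum_le _ _).trans (sum_le_sum fun n _ => ?_)
  rw [norm_mul, Complex.norm_real, Real.norm_eq_abs]
  have h2 := DirichletCharacter.norm_le_one χ.primitiveCharacter (n : ZMod χ.conductor)
  exact (mul_le_mul_of_nonneg_left h2 (abs_nonneg _)).trans (le_of_eq (mul_one _))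

private theorem ESC_fN (N : ℕ) (v : ℝ) (m : ℕ) : 0 ≤ wv N v m := by
  unfold wv tri
  exact le_max_left _ _

theorem ESC (h1 : Pool.Agent.SK.ENW_stmt) (h2 : Pool.Agent.SK.EWD_stmt) (h3 : EGC_stmt) (h4 : WVB_stmt) : ESC_stmt := by
  intro A Bq C
  obtain ⟨B₀, hB₀⟩ := h1 (A + 2 * Bq + 2) Bq C
  obtain ⟨N₁, hN₁⟩ := hB₀ B₀ le_rfl
  obtain ⟨N₂, hN₂⟩ := h2 (A + 2 * Bq + 2 + B₀) Bq C
  obtain ⟨N₄, hN₄⟩ := h3 (A + 2 * Bq + 1) C
  obtain ⟨N₃, _, hN₃⟩ := h4
  refine ⟨max N₁ (max N₂ (max N₃ (max N₄ 64))), ?_⟩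
  intro N hN v hvB M c R hM hMN hcM hR hRB
  have h1N : N₁ ≤ N := (le_max_left _ _).trans hN
  have h2N : N₂ ≤ N := (le_max_left _ _).trans ((le_max_right _ _).trans hN)
  have h3N : N₃ ≤ N := (le_max_left _ _).trans ((le_max_right _ _).trans ((le_max_right _ _).trans hN))
  have h4N : N₄ ≤ N := (le_max_left _ _).trans ((le_max_right _ _).trans ((le_max_right _ _).trans
    ((le_max_right _ _).trans hN)))
  have h64 : 64 ≤ N := (le_max_right _ _).trans ((le_max_right _ _).trans ((le_max_right _ _).trans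
    ((le_max_right _ _).trans hN)))
  have hv := ((hN₃ N h3N).1 v hvB).1
  have hgcd := hN₄ N h4N v hvB M hM hMN
  set L := Real.log N with hL
  have hN0 : (0 : ℝ) < N := by exact_mod_cast (by omega : 0 < N)
  have hNR : (64 : ℝ) ≤ N := by exact_mod_cast h64
  have hL2 : 2 ≤ L := by
    rw [hL, Real.le_log_iff_exp_le hN0]
    have h3 : Real.exp 2 < 9 := by
      have := Real.exp_one_lt_d9
      have h4 : Real.exp 2 = Real.exp 1 ^ 2 := by rw [← Real.exp_nat_mul]; norm_num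
      rw [h4]
      have h5 : 0 < Real.exp 1 := Real.exp_pos 1
      nlinarith
    linarith
  have hL0 : 0 < L := by linarith
  set f : ℕ → ℝ := fun m => edg C N m * wv N v m with hf
  set S : ℝ := ∑ m ∈ Z3 N, f m with hS
  set E : ℝ := (N : ℝ) ^ 2 / L ^ (A + 2 * Bq) with hE
  have hE0 : 0 ≤ E := by positivity
  have hhalf : (N : ℝ) ^ 2 / L ^ (A + 2 * Bq + 1) ≤ 1 / 2 * E := by
    rw [hE, pow_succ L (A + 2 * Bq), ← div_div]
    rw [div_le_iff₀ hL0]
    have h5 : 0 ≤ (N : ℝ) ^ 2 / L ^ (A + 2 * Bq) := by positivity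
    nlinarith
  have hquart : (N : ℝ) ^ 2 / L ^ (A + 2 * Bq + 2) ≤ 1 / 4 * E := by
    rw [show A + 2 * Bq + 2 = A + 2 * Bq + 1 + 1 by ring, pow_succ L (A + 2 * Bq + 1), ← div_div]
    rw [div_le_iff₀ hL0]
    nlinarith
  have hnon : ∑ n ∈ Z3 N with ¬ Nat.Coprime n M, |f n| ≤ 1 / 2 * E := by
    refine le_trans (le_of_eq ?_) (hgcd.trans hhalf)
    refine sum_congr rfl fun n _ => ?_
    rw [hf]
    simp only [abs_mul, abs_of_nonneg (ESC_fN N v n)]
  -- one primitive character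
  have hprim : ∀ q : ℕ, 1 ≤ q → (q : ℝ) ≤ L ^ Bq → ∀ χ : DirichletCharacter ℂ q, χ ≠ 1 →
      ‖∑ n ∈ Z3 N, (f n : ℂ) * χ n‖ ≤ 1 / 2 * E := by
    intro q hq hqB χ hχ
    have g1 := hN₁ N h1N (v) hv q hq hqB χ
    have hδ0 : 0 < 1 / L ^ B₀ := by positivity
    have hδ1 : 1 / L ^ B₀ ≤ 1 := by
      rw [div_le_one (by positivity)]
      exact one_le_pow₀ (by linarith)
    have hv2 : v + 1 / L ^ B₀ ≤ 3 * L + 2 := by
      have := (abs_le.1 hv).2
      linarith
    have g2 := hN₂ N h2N (v) (1 / L ^ B₀) hδ0 hv2 q hq hqB χ hχ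
    have e : ∑ n ∈ Z3 N, (f n : ℂ) * χ n =
        ∑ m ∈ Ioc 0 (64 * N ^ 3), ((edg C N m : ℝ) : ℂ) * χ m *
          ((tr0 (v) (1 / (N : ℝ)) (Real.log m) : ℝ) : ℂ) := by
      unfold Z3
      refine sum_congr rfl fun n _ => ?_
      have e0 : wv N v n = tr0 v (1 / (N : ℝ)) (Real.log n) := rfl
      rw [hf]
      simp only [e0]
      push_cast
      ring
    have e2 : ∑ m ∈ Ioc 0 (64 * N ^ 3), ((edg C N m : ℝ) : ℂ) * χ m *
          ((tr0 (v) (1 / (N : ℝ)) (Real.log m) : ℝ) : ℂ) =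
        ∑ m ∈ Ioc 0 (64 * N ^ 3), ((edg C N m : ℝ) : ℂ) * χ m * gj B₀ N (v) m +
        ((L ^ B₀ / N : ℝ) : ℂ) * ∑ m ∈ Ioc 0 (64 * N ^ 3), ((edg C N m : ℝ) : ℂ) * χ m *
          ((tr0 (v) (1 / L ^ B₀) (Real.log m) : ℝ) : ℂ) := by
      rw [mul_sum, ← sum_add_distrib]
      refine sum_congr rfl fun m _ => ?_
      unfold gj g0
      rw [← hL]
      push_cast
      ring
    rw [e, e2]
    refine (norm_add_le _ _).trans ?_
    have g3 : ‖((L ^ B₀ / N : ℝ) : ℂ) * ∑ m ∈ Ioc 0 (64 * N ^ 3), ((edg C N m : ℝ) : ℂ) * χ m *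
          ((tr0 (v) (1 / L ^ B₀) (Real.log m) : ℝ) : ℂ)‖ ≤ (N : ℝ) ^ 2 / L ^ (A + 2 * Bq + 2) := by
      rw [norm_mul, Complex.norm_real, Real.norm_of_nonneg (by positivity)]
      calc L ^ B₀ / N * ‖∑ m ∈ Ioc 0 (64 * N ^ 3), ((edg C N m : ℝ) : ℂ) * χ m *
            ((tr0 (v) (1 / L ^ B₀) (Real.log m) : ℝ) : ℂ)‖ ≤
          L ^ B₀ / N * ((N : ℝ) ^ 3 / L ^ (A + 2 * Bq + 2 + B₀)) :=
            mul_le_mul_of_nonneg_left g2 (by positivity)
        _ = (N : ℝ) ^ 2 / L ^ (A + 2 * Bq + 2) := by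
            rw [pow_add L (A + 2 * Bq + 2) B₀]
            field_simp
    linarith
  have hone : ∀ χ : DirichletCharacter ℂ M, χ.conductor ≤ R →
      (χ = 1 → ‖∑ n ∈ Z3 N, (f n : ℂ) * χ n - (S : ℂ)‖ ≤ E) ∧
      (χ ≠ 1 → ‖∑ n ∈ Z3 N, (f n : ℂ) * χ n - 0‖ ≤ E) := by
    intro χ hχ
    have : NeZero M := ⟨hM.ne'⟩
    have hcond0 : χ.conductor ≠ 0 := DirichletCharacter.conductor_ne_zero χ
    have hcB : (χ.conductor : ℝ) ≤ L ^ Bq := by
      refine le_trans ?_ hRB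
      exact_mod_cast hχ
    constructor
    · intro hχ1
      refine (ESC_prim (Z3 N) M f χ _).trans ?_
      have hlev : χ.conductor = 1 := DirichletCharacter.eq_one_iff_conductor_eq_one.1 hχ1
      have hsub : ∀ k : ℕ, k = 1 → ∀ ψ : DirichletCharacter ℂ k, ∀ n : ℕ, ψ n = 1 := by
        intro k hk ψ n
        subst hk
        rw [DirichletCharacter.level_one ψ, MulChar.one_apply]
        exact isUnit_of_subsingleton _
      have e : ∑ n ∈ Z3 N, (f n : ℂ) * χ.primitiveCharacter n - (S : ℂ) = 0 := by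
        rw [hS, Complex.ofReal_sum, sub_eq_zero]
        refine sum_congr rfl fun n _ => ?_
        rw [hsub _ hlev, mul_one]
      rw [e, norm_zero]
      linarith
    · intro hχ1
      refine (ESC_prim (Z3 N) M f χ _).trans ?_
      have hp : χ.primitiveCharacter ≠ 1 := by
        intro h
        apply hχ1
        have h5 := χ.changeLevel_primitiveCharacter
        rw [h, map_one] at h5
        exact h5.symm
      have g1 := hprim χ.conductor (Nat.one_le_iff_ne_zero.2 hcond0) hcB χ.primitiveCharacter hp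
      rw [sub_zero]
      linarith
  have hfin := ESC_red (Z3 N) f S M c R hM hcM hR E hone
  refine hfin.trans ?_
  refine mul_le_mul_of_nonneg_left ?_ (by positivity)
  have h3 : ((R * R : ℕ) : ℝ) ≤ L ^ (2 * Bq) := by
    push_cast
    calc (R : ℝ) * R ≤ L ^ Bq * L ^ Bq := by gcongr
      _ = L ^ (2 * Bq) := by rw [← pow_add]; congr 1; ring
  calc ((R * R : ℕ) : ℝ) * E ≤ L ^ (2 * Bq) * ((N : ℝ) ^ 2 / L ^ (A + 2 * Bq)) := by
        rw [hE]
        gcongr
    _ = (N : ℝ) ^ 2 / L ^ A := by rw [pow_add]; field_simp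

end Pool.Agent.XE
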